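import Pool.Agent.W2helper4.NB.Rel
import Pool.Agent.W2helper4.HJ.Tor

/-!
# Logarithms of positive analytic functions along a segment
-/

set_option autoImplicit false

open Filter Topology Matrix

namespace Pool.Agent.W2helper4.NB

open Pool.Agent.Y119.HY

/-- the values on the positive part of the segment are positive -/
def Pos (R : ℝ) (f : ℂ → ℂ) : Prop := ∀ x : ℝ, 0 ≤ x → x ≤ R → ∃ r : ℝ, 0 < r ∧ f x = r

/-- a function which vanishes at `0` and is positive on `(0, R]` is a power of the variable times a positive function -/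
theorem factor {R : ℝ} (hR : 0 < R) {φ : ℂ → ℂ} (hφ : AnalyticOnNhd ℂ φ (Sg1 R)) (h0 : φ 0 = 0)
    (hpos : ∀ x : ℝ, 0 < x → x ≤ R → ∃ r : ℝ, 0 < r ∧ φ x = r) :
    ∃ (e : ℕ) (u : ℂ → ℂ), e ≠ 0 ∧ AnalyticOnNhd ℂ u (Sg1 R) ∧ Pos R u ∧
      ∀ x : ℝ, 0 ≤ x → x ≤ R → φ x = (x : ℂ) ^ e * u x := by
  classical
  have hof : Tendsto (fun x : ℝ => (x : ℂ)) (𝓝[>] 0) (𝓝 0) :=
    tendsto_nhdsWithin_of_tendsto_nhds (by
      have := Complex.continuous_ofReal.tendsto 0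
      simpa using this)
  have hlt : ∀ᶠ x : ℝ in 𝓝[>] 0, x < R := tendsto_nhdsWithin_of_tendsto_nhds tendsto_id (gt_mem_nhds hR)
  have hle : ∀ᶠ x : ℝ in 𝓝[>] 0, x ≤ R := hlt.mono fun x hx => hx.le
  have h0R : (0 : ℂ) ∈ Sg1 R := ⟨0, ⟨le_rfl, hR.le⟩, Complex.ofReal_zero⟩
  have hne : ¬ ∀ᶠ z in 𝓝 (0 : ℂ), φ z = 0 := by
    intro h
    have h1 := hof.eventually h
    obtain ⟨x, hx1, hx2, hx3⟩ := (h1.and (hle.and self_mem_nhdsWithin)).exists
    obtain ⟨r, hr, hr1⟩ := hpos x hx3 hx2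
    rw [hr1] at hx1
    exact hr.ne' (by exact_mod_cast hx1)
  obtain ⟨e, g, hg, hg0, hgz⟩ := (hφ 0 h0R).exists_eventuallyEq_pow_smul_nonzero_iff.2 hne
  set u : ℂ → ℂ := fun z => if z = 0 then g 0 else φ z / z ^ e with hu
  have hug : u =ᶠ[𝓝 0] g := by
    filter_upwards [hgz] with z hz
    rw [hu]
    by_cases h : z = 0
    · simp [h]
    · simp only [if_neg h]
      rw [hz, sub_zero, smul_eq_mul, mul_div_assoc, mul_comm, div_mul_cancel₀ _ (pow_ne_zero _ h)]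
  have hupos : ∀ x : ℝ, 0 < x → x ≤ R → ∃ r : ℝ, 0 < r ∧ u x = r := by
    intro x hx hx1
    obtain ⟨r, hr, hr1⟩ := hpos x hx hx1
    refine ⟨r / x ^ e, by positivity, ?_⟩
    have hx0 : (x : ℂ) ≠ 0 := by exact_mod_cast hx.ne'
    rw [hu]
    simp only [if_neg hx0, hr1]
    push_cast
    rfl
  have hu0 : ∃ r : ℝ, 0 < r ∧ u 0 = r := by
    have h1 : Tendsto (fun x : ℝ => u (x : ℂ)) (𝓝[>] 0) (𝓝 (g 0)) := (hg.continuousAt.tendsto.congr' hug.symm).comp hof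
    have hcl : IsClosed ((fun r : ℝ => (r : ℂ)) '' Set.Ici 0) :=
      Complex.isometry_ofReal.isClosedEmbedding.isClosedMap _ isClosed_Ici
    have h2 : g 0 ∈ (fun r : ℝ => (r : ℂ)) '' Set.Ici 0 := by
      refine hcl.mem_of_tendsto h1 ?_
      filter_upwards [hle, self_mem_nhdsWithin] with x hx hx0
      obtain ⟨r, hr, hr1⟩ := hupos x hx0 hx
      exact ⟨r, hr.le, hr1.symm⟩
    obtain ⟨r, hr, hr1⟩ := h2
    refine ⟨r, lt_of_le_of_ne hr ?_, ?_⟩
    · rintro rfl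
      apply hg0
      rw [← hr1]
      simp
    · rw [hu]
      simp only [if_true]
      exact hr1.symm
  have hval : ∀ x : ℝ, 0 ≤ x → x ≤ R → φ x = (x : ℂ) ^ e * u x := by
    intro x hx hx1
    rcases hx.eq_or_lt with h | h
    · subst h
      have h2 := hgz.self_of_nhds
      rw [sub_zero, smul_eq_mul] at h2
      rw [Complex.ofReal_zero, h2, hu]
      simp
    · have hx0 : (x : ℂ) ≠ 0 := by exact_mod_cast h.ne'
      rw [hu]
      simp only [if_neg hx0]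
      rw [mul_div_cancel₀ _ (pow_ne_zero _ hx0)]
  refine ⟨e, u, ?_, ?_, ?_, hval⟩
  · rintro rfl
    have h1 := hval 0 le_rfl hR.le
    obtain ⟨r, hr, hr1⟩ := hu0
    rw [Complex.ofReal_zero, h0, pow_zero, one_mul, hr1] at h1
    exact hr.ne (by exact_mod_cast h1)
  · rintro _ ⟨x, hx, rfl⟩
    rcases hx.1.eq_or_lt with h | h
    · subst h
      show AnalyticAt ℂ u ((0 : ℝ) : ℂ)
      rw [Complex.ofReal_zero]
      exact hg.congr hug.symm
    · have hx0 : (x : ℂ) ≠ 0 := by exact_mod_cast h.ne'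
      have h1 : AnalyticAt ℂ (fun z => φ z / z ^ e) (x : ℂ) :=
        (hφ _ (mem_Sg1 hx.1 hx.2)).div (analyticAt_id.pow e) (pow_ne_zero _ hx0)
      refine h1.congr ?_
      filter_upwards [isOpen_ne.mem_nhds hx0] with z hz
      rw [hu]
      simp only [if_neg hz]
  · intro x hx hx1
    rcases hx.eq_or_lt with h | h
    · subst h
      rw [Complex.ofReal_zero]
      exact hu0
    · exact hupos x h hx1

variable {n : ℕ}

lemma an_E {U : Set ℂ} (N : Matrix (Fin n) (Fin n) ℂ) {f : ℂ → ℂ} (hf : AnalyticOnNhd ℂ f U) (i j : Fin n) :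
    AnalyticOnNhd ℂ (fun w => E N (f w) i j) U := by
  intro w hw
  unfold E
  simp only [Matrix.sum_apply, Matrix.smul_apply, smul_eq_mul]
  refine Finset.analyticAt_fun_sum _ fun l _ => ?_
  exact (((hf w hw).fun_pow l).fun_div analyticAt_const (by exact_mod_cast l.factorial_ne_zero)).fun_mul
    analyticAt_const

lemma an_mul {U : Set ℂ} {A B : ℂ → Matrix (Fin n) (Fin n) ℂ} (hA : ∀ i j, AnalyticOnNhd ℂ (fun w => A w i j) U)
    (hB : ∀ i j, AnalyticOnNhd ℂ (fun w => B w i j) U) (i j : Fin n) :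
    AnalyticOnNhd ℂ (fun w => (A w * B w) i j) U := by
  intro w hw
  simp only [Matrix.mul_apply]
  exact Finset.analyticAt_fun_sum _ fun l _ => (hA i l w hw).fun_mul (hB l j w hw)

lemma an_log {R : ℝ} {f : ℂ → ℂ} (hf : AnalyticOnNhd ℂ f (Sg1 R)) (hp : Pos R f) :
    AnalyticOnNhd ℂ (fun w => Complex.log (f w)) (Sg1 R) := by
  rintro _ ⟨x, hx, rfl⟩
  obtain ⟨r, hr, hr1⟩ := hp x hx.1 hx.2
  refine (hf _ (mem_Sg1 hx.1 hx.2)).clog ?_
  rw [hr1]
  exact HJ.slit_real hr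

lemma an_Hf {H : ℕ → Matrix (Fin n) (Fin n) ℂ}
    (hH : ∀ i j, AnalyticOnNhd ℂ (fun z => Hf H z i j) (Metric.ball 0 1)) {U : Set ℂ} {f : ℂ → ℂ}
    (hf : AnalyticOnNhd ℂ f U) (hb : ∀ w ∈ U, ‖f w‖ < 1) (i j : Fin n) :
    AnalyticOnNhd ℂ (fun w => Hf H (f w) i j) U := by
  intro w hw
  exact AnalyticAt.fun_comp (g := fun z => Hf H z i j) (f := f)
    (hH i j _ (by rw [Metric.mem_ball, dist_zero_right]; exact hb w hw)) (hf w hw)

lemma E_smul_mat (e : ℂ) (N : Matrix (Fin n) (Fin n) ℂ) (s : ℂ) : E (e • N) s = E N (e * s) := by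
  unfold E
  refine Finset.sum_congr rfl fun i _ => ?_
  rw [smul_pow, smul_smul, mul_pow]
  congr 1
  ring

lemma smul_nil {N : Matrix (Fin n) (Fin n) ℂ} (h : N ^ n = 0) (e : ℂ) : (e • N) ^ n = 0 := by
  rw [smul_pow, h, smul_zero]

/-- the logarithm of a product of positive numbers -/
lemma log_prod {x r : ℝ} (hx : 0 < x) (hr : 0 < r) (e : ℕ) :
    Complex.log ((x : ℂ) ^ e * r) = Complex.log (r : ℂ) + e * Complex.log (x : ℂ) := by
  have h1 : ((x : ℂ) ^ e * r) = ((x ^ e * r : ℝ) : ℂ) := by push_cast; rfl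
  rw [h1, ← Complex.ofReal_log (by positivity), ← Complex.ofReal_log hr.le, ← Complex.ofReal_log hx.le,
    Real.log_mul (by positivity) hr.ne', Real.log_pow]
  push_cast
  ring

/-- the solution near a zero of the coordinate -/
theorem Yf_local {R : ℝ} {N : Matrix (Fin n) (Fin n) ℂ} (hN : N ^ n = 0) {H : ℕ → Matrix (Fin n) (Fin n) ℂ}
    {φ u : ℂ → ℂ} {e : ℕ} (hu : Pos R u) (hφ : ∀ x : ℝ, 0 ≤ x → x ≤ R → φ x = (x : ℂ) ^ e * u x) {x : ℝ}
    (hx : 0 < x) (hx1 : x ≤ R) :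
    Yf N H (φ x) = (Hf H (φ x) * E N (Complex.log (u x))) * E ((e : ℂ) • N) (Complex.log x) := by
  obtain ⟨r, hr, hr1⟩ := hu x hx.le hx1
  unfold Yf
  rw [E_smul_mat, Matrix.mul_assoc, ← E_add hN]
  congr 2
  rw [hφ x hx.le hx1, hr1]
  exact log_prod hx hr e

end Pool.Agent.W2helper4.NB
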