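import Pool.Agent.W2helper4.NB.Stage

/-!
# Independence of pulled back families with different singular points
-/

set_option autoImplicit false

open Filter Topology Matrix

namespace Pool.Agent.W2helper4.NB

open Pool.Agent.Y119.HY Pool.Agent.W2helper4.HJ

/-- `φ` is analytic along `[0, R]`, `φ 0 = 0`, `φ R = 1` and `φ` has values in `(0, 1)` on `(0, R)` -/
structure Good (R : ℝ) (φ : ℂ → ℂ) : Prop where
  pos : 0 < R
  an : AnalyticOnNhd ℂ φ (Sg1 R)
  zero : φ 0 = 0
  one : φ R = 1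
  mid : ∀ x : ℝ, 0 < x → x < R → ∃ r : ℝ, 0 < r ∧ r < 1 ∧ φ x = r

lemma Good.pos_val {R : ℝ} {φ : ℂ → ℂ} (h : Good R φ) (x : ℝ) (hx : 0 < x) (hx1 : x ≤ R) :
    ∃ r : ℝ, 0 < r ∧ φ x = r := by
  rcases hx1.eq_or_lt with h1 | h1
  · subst h1
    exact ⟨1, one_pos, by rw [h.one]; simp⟩
  · obtain ⟨r, hr0, hr1, hr2⟩ := h.mid x hx h1
    exact ⟨r, hr0, hr2⟩

variable {k : ℕ} {m : Fin k → ℕ}

/-- the variables: `z`, `log z` and the entries of the matrices -/
abbrev VX (m : Fin k → ℕ) : Type := Option (Sg m)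

/-- the point with given coordinates -/
def ptx {R : Type*} (x L : R) (Z : ∀ i, Matrix (Fin (2 * m i)) (Fin (2 * m i)) R) : VX m → R :=
  fun o => o.elim x fun s => s.elim L fun q => Z q.1 q.2.1 q.2.2

/-- evaluation -/
noncomputable def evx (P : MvPolynomial (VX m) ℂ) (x L : ℂ) (Z : ∀ i, Matrix (Fin (2 * m i)) (Fin (2 * m i)) ℂ) : ℂ :=
  MvPolynomial.eval (ptx x L Z) P

lemma Sg1_ball {R ρ : ℝ} {φ : ℂ → ℂ} (h : Good R φ) (hρ : ρ < R) : ∀ z ∈ Sg1 ρ, ‖φ z‖ < 1 := by
  rintro _ ⟨y, hy, rfl⟩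
  rcases hy.1.eq_or_lt with h1 | h1
  · subst h1
    simp [h.zero]
  · obtain ⟨r, hr0, hr1, hr2⟩ := h.mid y h1 (lt_of_le_of_lt hy.2 hρ)
    rw [hr2, Complex.norm_real, Real.norm_of_nonneg hr0.le]
    exact hr1

lemma Sg1_mono {R ρ : ℝ} (h : ρ ≤ R) : Sg1 ρ ⊆ Sg1 R := Set.image_mono (Set.Icc_subset_Icc le_rfl h)

/-- the logarithm is independent of the functions which are analytic along the segment -/
theorem log_free {ρ : ℝ} (hρ : 0 < ρ) {F : ℂ → ℂ → Matrix (Fin 0) (Fin 0) ℂ → ℂ} (hF : PF ρ F)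
    (h : ∀ x : ℝ, 0 < x → x < ρ → F x (Complex.log x) 0 = 0) {x : ℝ} (hx : 0 < x) (hx1 : x < ρ) (L : ℂ) :
    F x L 0 = 0 := by
  obtain ⟨P, hP⟩ := hF
  have hPR : P ∈ RelW ρ (fun (k : AN ρ) => k.1) (fun _ => (0 : Matrix (Fin 0) (Fin 0) ℂ)) := by
    intro y hy hy1
    rw [← hP]
    exact h y hy hy1
  have h1 := mono_zeroW hρ (fun k : AN ρ => k.2) (N0 := 0) (Subsingleton.elim _ _) (G := fun _ => 0)
    (fun i => i.elim0) (Y := fun _ => 0) (fun y _ _ => Subsingleton.elim _ _) (L - Complex.log x) hPR hx hx1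
  rw [← hP, add_sub_cancel, Subsingleton.elim ((0 : Matrix (Fin 0) (Fin 0) ℂ) * _) 0] at h1
  exact h1

variable (β : ∀ i, Fin (m i) → ℚ) (R : Fin k → ℝ) (φ : Fin k → ℂ → ℂ)

lemma YYφ_an {m : ℕ} (hm : 1 ≤ m) {β : Fin m → ℚ} (hβ : ∀ i, ∀ a : ℤ, β i ≠ a) {R : ℝ} {φ : ℂ → ℂ} (h : Good R φ)
    (a b : Fin (2 * m)) : AnalyticOnNhd ℂ (fun z => YY β (φ z) a b) ((fun x : ℝ => (x : ℂ)) '' Set.Ioo 0 R) := by
  rintro _ ⟨x, hx, rfl⟩
  obtain ⟨r, hr0, hr1, hr2⟩ := h.mid x hx.1 hx.2
  refine AnalyticAt.fun_comp (g := fun z => YY β z a b) (f := φ) (YY_an hm hβ a b (φ x) ?_)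
    (h.an _ (mem_Sg1 hx.1.le hx.2.le))
  rw [hr2]
  exact ⟨slit_real hr0, by
    rw [Metric.mem_ball, dist_zero_right, Complex.norm_real, Real.norm_of_nonneg hr0.le]; exact hr1⟩

lemma an_eval {σ : Type*} {U : Set ℂ} {f : σ → ℂ → ℂ} (hf : ∀ s, AnalyticOnNhd ℂ (f s) U) (P : MvPolynomial σ ℂ) :
    AnalyticOnNhd ℂ (fun z => MvPolynomial.eval (fun s => f s z) P) U := by
  induction P using MvPolynomial.induction_on with
  | C a => simpa using analyticOnNhd_const
  | add p q hp hq => simp only [map_add]; exact hp.add hq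
  | mul_X p i hp => simp only [map_mul, MvPolynomial.eval_X]; exact hp.mul (hf i)

/-- a function which is analytic along `(0, ρ')` and vanishes on `(0, ρ)` vanishes -/
lemma extend {ρ ρ' : ℝ} (hρ : 0 < ρ) (hle : ρ ≤ ρ') {f : ℂ → ℂ}
    (hf : AnalyticOnNhd ℂ f ((fun x : ℝ => (x : ℂ)) '' Set.Ioo 0 ρ')) (h : ∀ x : ℝ, 0 < x → x < ρ → f x = 0) {x : ℝ}
    (hx : 0 < x) (hx1 : x < ρ') : f x = 0 := by
  have hconn : IsPreconnected ((fun x : ℝ => (x : ℂ)) '' Set.Ioo 0 ρ') :=
    isPreconnected_Ioo.image _ Complex.continuous_ofReal.continuousOn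
  have hz0 : ((ρ / 2 : ℝ) : ℂ) ∈ (fun x : ℝ => (x : ℂ)) '' Set.Ioo 0 ρ' := ⟨ρ / 2, ⟨by linarith, by linarith⟩, rfl⟩
  have hfreq : ∃ᶠ z in 𝓝[≠] ((ρ / 2 : ℝ) : ℂ), f z = 0 := by
    have h1 : Tendsto (fun y : ℝ => (y : ℂ)) (𝓝[>] (ρ / 2)) (𝓝[≠] ((ρ / 2 : ℝ) : ℂ)) := by
      refine tendsto_nhdsWithin_of_tendsto_nhds_of_eventually_within _ ?_ ?_
      · exact tendsto_nhdsWithin_of_tendsto_nhds (Complex.continuous_ofReal.tendsto _)
      · filter_upwards [self_mem_nhdsWithin] with y hy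
        have h2 : y ≠ ρ / 2 := ne_of_gt hy
        exact fun h3 => h2 (Complex.ofReal_injective h3)
    refine h1.frequently (Filter.Eventually.frequently ?_)
    have h2 : ∀ᶠ y : ℝ in 𝓝[>] (ρ / 2), y < ρ :=
      tendsto_nhdsWithin_of_tendsto_nhds tendsto_id (gt_mem_nhds (by linarith))
    filter_upwards [h2, self_mem_nhdsWithin] with y hy1 hy2
    have hy3 : ρ / 2 < y := hy2
    exact h y (by linarith) hy1
  exact hf.eqOn_zero_of_preconnected_of_frequently_eq_zero hconn hz0 hfreq ⟨x, ⟨hx, hx1⟩, rfl⟩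

theorem indep (hm : ∀ i, 1 ≤ m i) (hβ : ∀ i j, ∀ a : ℤ, β i j ≠ a) (hg : ∀ i, Good (R i) (φ i))
    (hR : ∀ i j, i ≠ j → R i ≠ R j) (P : MvPolynomial (VX m) ℂ)
    (Z : ∀ i, Matrix (Fin (2 * m i)) (Fin (2 * m i)) ℂ) (hZ : ∀ i, (Z i).transpose * JJ (β i) * Z i = JJ (β i)) :
    ∀ (N : ℕ) (S : Finset (Fin k)), S.card = N → ∀ ρ : ℝ, 0 < ρ → (∀ i ∈ S, ρ ≤ R i) →
      (∀ x : ℝ, 0 < x → x < ρ →
        evx P x (Complex.log x) (fun i => if i ∈ S then YY (β i) (φ i x) else Z i) = 0) →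
      ∀ x : ℝ, 0 < x → x < ρ → ∀ L : ℂ, evx P x L Z = 0 := by
  classical
  intro N
  induction N with
  | zero =>
    intro S hS ρ hρ _ h x hx hx1 L
    have hS0 : S = ∅ := Finset.card_eq_zero.1 hS
    subst hS0
    simp only [Finset.notMem_empty, if_false] at h
    refine log_free hρ (F := fun x L _ => evx P x L Z) ?_ h hx hx1 L
    refine PF.eval (F := fun s x L _ => ptx x L Z s) (fun s => ?_) P
    rcases s with _ | _ | q
    · exact PF.an analyticOnNhd_id
    · exact PF.log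
    · exact PF.const _
  | succ N ih =>
    intro S hS ρ hρ hρR h x hx hx1 L
    have hSne : S.Nonempty := Finset.card_pos.1 (by omega)
    obtain ⟨i0, hi0, hmin⟩ := Finset.exists_min_image S R hSne
    have hlt : ∀ i ∈ S, i ≠ i0 → R i0 < R i := fun i hi hne =>
      lt_of_le_of_ne (hmin i hi) (hR i0 i (Ne.symm hne))
    set ρ' := R i0 with hρ'
    have hρ'pos : 0 < ρ' := (hg i0).pos
    have hle : ρ ≤ ρ' := hρR i0 hi0
    -- extension of the relation
    have hext : ∀ y : ℝ, 0 < y → y < ρ' →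
        evx P y (Complex.log y) (fun i => if i ∈ S then YY (β i) (φ i y) else Z i) = 0 := by
      intro y hy hy1
      refine extend (f := fun z => evx P z (Complex.log z) (fun i => if i ∈ S then YY (β i) (φ i z) else Z i))
        hρ hle ?_ h hy hy1
      refine an_eval (f := fun s z => ptx z (Complex.log z)
        (fun i => if i ∈ S then YY (β i) (φ i z) else Z i) s) (fun s => ?_) P
      rcases s with _ | _ | ⟨i, a, b⟩
      · exact analyticOnNhd_id
      · rintro _ ⟨t, ht, rfl⟩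
        exact analyticAt_clog (slit_real ht.1)
      · by_cases hi : i ∈ S
        · simp only [ptx, Option.elim_some, if_pos hi]
          refine (YYφ_an (hm i) (hβ i) (hg i) a b).mono (Set.image_mono (Set.Ioo_subset_Ioo le_rfl ?_))
          exact hmin i hi
        · simp only [ptx, Option.elim_some, if_neg hi]
          exact analyticOnNhd_const
    -- local structure of the other families at `0`
    have hfac : ∀ i, ∃ (e : ℕ) (u : ℂ → ℂ), e ≠ 0 ∧ AnalyticOnNhd ℂ u (Sg1 (R i)) ∧ Pos (R i) u ∧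
        ∀ x : ℝ, 0 ≤ x → x ≤ R i → φ i x = (x : ℂ) ^ e * u x := fun i =>
      factor (hg i).pos (hg i).an (hg i).zero (hg i).pos_val
    choose e u he hu1 hu2 hu3 using hfac
    have hQ : ∀ i, QD (2 * m i) (QB (β i)) := fun i => Pool.Agent.Y119.HZ.QD_QB (hm i) (not_int (hβ i))
    set B : ℂ → ℂ → ∀ i, Matrix (Fin (2 * m i)) (Fin (2 * m i)) ℂ := fun x L i =>
      if i ∈ S then (Hf (Hc (2 * m i) (QB (β i))) (φ i x) * E (cm (Am (2 * m i))) (Complex.log (u i x))) *
        E ((e i : ℂ) • cm (Am (2 * m i))) L else Z i with hB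
    have key : ∀ y : ℝ, 0 < y → y < ρ' →
        evx P y (Complex.log y) (fun i => if i ∈ S.erase i0 then YY (β i) (φ i y) else Z i) = 0 := by
      intro y hy hy1
      have hupd : ∀ (t : ℝ), 0 < t → t < ρ' → ∀ X : Matrix (Fin (2 * m i0)) (Fin (2 * m i0)) ℂ, ∀ i, i ≠ i0 →
          Function.update (B t (Complex.log t)) i0 X i = if i ∈ S then YY (β i) (φ i t) else Z i := by
        intro t ht ht1 X i hi
        rw [Function.update_of_ne hi]
        by_cases hiS : i ∈ S
        · simp only [hB, if_pos hiS]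
          exact (Yf_local (N := cm (Am (2 * m i))) Ac_nil (hu2 i) (hu3 i) ht (ht1.le.trans (hlt i hiS hi).le)).symm
        · simp only [hB, if_neg hiS]
      have h1 := stage (hm i0) (hβ i0) hρ'pos (hg i0).an (hg i0).zero (hg i0).one (hg i0).mid
        (F := fun x L X => evx P x L (Function.update (B x L) i0 X)) ?_ (fun t ht ht1 => ?_) hy hy1 (Complex.log y)
        (hZ i0)
      · rw [← h1]
        congr 1
        funext i
        by_cases hi : i = i0
        · subst hi
          rw [Function.update_self, if_neg (Finset.notMem_erase _ _)]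
        · rw [hupd y hy hy1 _ i hi]
          by_cases hiS : i ∈ S
          · rw [if_pos hiS, if_pos (Finset.mem_erase.2 ⟨hi, hiS⟩)]
          · rw [if_neg hiS, if_neg fun h2 => hiS (Finset.mem_erase.1 h2).2]
      · refine PF.eval (F := fun s x L X => ptx x L (Function.update (B x L) i0 X) s) (fun s => ?_) P
        rcases s with _ | _ | ⟨i, a, b⟩
        · exact PF.an analyticOnNhd_id
        · exact PF.log
        · simp only [ptx, Option.elim_some]
          by_cases hi : i = i0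
          · subst hi
            simp only [Function.update_self]
            exact PF.entry a b
          · simp only [Function.update_of_ne hi]
            by_cases hiS : i ∈ S
            · simp only [hB, if_pos hiS]
              have hball := Sg1_ball (hg i) (hlt i hiS hi)
              have hmono : Sg1 ρ' ⊆ Sg1 (R i) := Sg1_mono (hlt i hiS hi).le
              have hHan := Hf_an (sol_c (hQ i)) Ac_nil
              have hGan : ∀ a b, AnalyticOnNhd ℂ (fun z => (Hf (Hc (2 * m i) (QB (β i))) (φ i z) *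
                  E (cm (Am (2 * m i))) (Complex.log (u i z))) a b) (Sg1 ρ') := fun a b =>
                an_mul (an_Hf hHan ((hg i).an.mono hmono) hball)
                  (an_E _ ((an_log (hu1 i) (hu2 i)).mono hmono)) a b
              simp only [Matrix.mul_apply (M := Hf (Hc (2 * m i) (QB (β i))) _ * E (cm (Am (2 * m i))) _)]
              refine PF.sum _ fun c => (PF.an (hGan a c)).mul ?_
              unfold E
              simp only [Matrix.sum_apply, Matrix.smul_apply, smul_eq_mul, div_eq_mul_inv]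
              exact PF.sum _ fun l => ((PF.log.pow l).mul (PF.const _)).mul (PF.const _)
            · simp only [hB, if_neg hiS]
              exact PF.const _
      · rw [← hext t ht ht1]
        show evx P t (Complex.log t) (Function.update (B t (Complex.log t)) i0 (YY (β i0) (φ i0 t))) = _
        congr 1
        funext i
        by_cases hi : i = i0
        · subst hi
          rw [Function.update_self, if_pos hi0]
        · exact hupd t ht ht1 _ i hi
    exact ih (S.erase i0) (by rw [Finset.card_erase_of_mem hi0, hS]; rfl) ρ' hρ'pos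
      (fun i hi => (hlt i (Finset.mem_erase.1 hi).2 (Finset.mem_erase.1 hi).1).le) key x hx (hx1.trans_le hle) L

end Pool.Agent.W2helper4.NB
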