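import Pool.Agent.Y119.HY.Gal

/-!
# Relations with coefficients which are analytic along a segment
-/

set_option autoImplicit false

open Filter Topology Matrix Polynomial

namespace Pool.Agent.W2helper4.NB

open Pool.Agent.Y119.HY

/-! ### segments -/

/-- the half open segment -/
def Sg0 (R : ℝ) : Set ℂ := (fun x : ℝ => (x : ℂ)) '' Set.Ico 0 R

/-- the closed segment -/
def Sg1 (R : ℝ) : Set ℂ := (fun x : ℝ => (x : ℂ)) '' Set.Icc 0 R

lemma Sg0_sub {R : ℝ} : Sg0 R ⊆ Sg1 R := Set.image_mono Set.Ico_subset_Icc_self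

lemma Sg0_conn {R : ℝ} : IsPreconnected (Sg0 R) :=
  isPreconnected_Ico.image _ Complex.continuous_ofReal.continuousOn

lemma mem_Sg0 {R x : ℝ} (h0 : 0 ≤ x) (h1 : x < R) : (x : ℂ) ∈ Sg0 R := ⟨x, ⟨h0, h1⟩, rfl⟩

lemma mem_Sg1 {R x : ℝ} (h0 : 0 ≤ x) (h1 : x ≤ R) : (x : ℂ) ∈ Sg1 R := ⟨x, ⟨h0, h1⟩, rfl⟩

lemma flip_mem {R : ℝ} {w : ℂ} (h : w ∈ Sg1 R) : (R : ℂ) - w ∈ Sg1 R := by
  obtain ⟨x, hx, rfl⟩ := h
  exact ⟨R - x, ⟨by linarith [hx.2], by linarith [hx.1]⟩, by push_cast; rfl⟩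

/-- reflection of an analytic function -/
lemma an_flip {R : ℝ} {f : ℂ → ℂ} (hf : AnalyticOnNhd ℂ f (Sg1 R)) :
    AnalyticOnNhd ℂ (fun w => f ((R : ℂ) - w)) (Sg1 R) := by
  intro w hw
  exact AnalyticAt.fun_comp (g := f) (f := fun w => (R : ℂ) - w) (hf _ (flip_mem hw))
    (analyticAt_const.sub analyticAt_id)

/-- separation of the powers of the logarithm on a segment -/
theorem log_zeroR {R : ℝ} (hR : 0 < R) {f : ℂ → ℂ[X]} (hf : PA (Sg0 R) f)
    (h : ∀ x : ℝ, 0 < x → x < R → (f (x : ℂ)).eval ((Real.log x : ℝ) : ℂ) = 0) : ∀ z ∈ Sg0 R, f z = 0 := by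
  obtain ⟨h1, d, hd⟩ := hf
  have h0 : (0 : ℂ) ∈ Sg0 R := ⟨0, ⟨le_rfl, hR⟩, Complex.ofReal_zero⟩
  have h2 := log_sep (d := d) (fun j z => (f z).coeff j) (fun j _ => h1 j 0 h0) (by
    have : ∀ᶠ x : ℝ in 𝓝[>] 0, x < R := tendsto_nhdsWithin_of_tendsto_nhds tendsto_id (gt_mem_nhds hR)
    filter_upwards [this, self_mem_nhdsWithin] with x hx hx0
    rw [← Polynomial.eval_eq_sum_range' (hd x)]
    exact h x hx0 hx)
  intro z hz
  ext j
  rw [coeff_zero]
  by_cases hj : j < d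
  · exact (h1 j).eqOn_zero_of_preconnected_of_eventuallyEq_zero Sg0_conn h0 (h2 j hj) hz
  · exact coeff_eq_zero_of_natDegree_lt (lt_of_lt_of_le (hd z) (not_lt.1 hj))

/-! ### evaluation -/

variable {n : ℕ} {κ : Type}

/-- the variables: coefficients, the logarithm and the entries of a matrix -/
abbrev Wr (κ : Type) (n : ℕ) : Type := κ ⊕ Option (Fin n × Fin n)

/-- the point with given coordinates -/
def ptw {R : Type*} (a : κ → R) (L : R) (X : Matrix (Fin n) (Fin n) R) : Wr κ n → R :=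
  Sum.elim a fun o => o.elim L fun x => X x.1 x.2

/-- evaluation -/
noncomputable def evw (P : MvPolynomial (Wr κ n) ℂ) (a : κ → ℂ) (L : ℂ) (X : Matrix (Fin n) (Fin n) ℂ) : ℂ :=
  MvPolynomial.eval (ptw a L X) P

/-- evaluation at polynomials -/
noncomputable def evwp (P : MvPolynomial (Wr κ n) ℂ) (a : κ → ℂ[X]) (L : ℂ[X]) (X : Matrix (Fin n) (Fin n) ℂ[X]) :
    ℂ[X] := MvPolynomial.aeval (ptw a L X) P

lemma eval_evwp (P : MvPolynomial (Wr κ n) ℂ) (a : κ → ℂ[X]) (L : ℂ[X]) (X : Matrix (Fin n) (Fin n) ℂ[X]) (s : ℂ) :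
    (evwp P a L X).eval s = evw P (fun k => (a k).eval s) (L.eval s) (X.map (Polynomial.eval s)) := by
  unfold evwp evw
  induction P using MvPolynomial.induction_on with
  | C a => simp
  | add p q hp hq => simp only [map_add, eval_add, hp, hq]
  | mul_X p i hp =>
    simp only [map_mul, eval_mul, hp, MvPolynomial.aeval_X, MvPolynomial.eval_X]
    congr 1
    rcases i with k | _ | x
    · rfl
    · rfl
    · rfl

/-- substitution `L ↦ L + c`, `X ↦ X g` -/
noncomputable def sbw (c : ℂ) (g : Matrix (Fin n) (Fin n) ℂ) (P : MvPolynomial (Wr κ n) ℂ) :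
    MvPolynomial (Wr κ n) ℂ :=
  MvPolynomial.bind₁ (ptw (fun k => MvPolynomial.X (Sum.inl k)) (MvPolynomial.X (Sum.inr none) + MvPolynomial.C c)
    (Matrix.of fun i j => ∑ k, MvPolynomial.X (Sum.inr (some (i, k))) * MvPolynomial.C (g k j))) P

lemma ev_sbw (c : ℂ) (g : Matrix (Fin n) (Fin n) ℂ) (P : MvPolynomial (Wr κ n) ℂ) (a : κ → ℂ) (L : ℂ)
    (X : Matrix (Fin n) (Fin n) ℂ) : evw (sbw c g P) a L X = evw P a (L + c) (X * g) := by
  unfold evw sbw
  induction P using MvPolynomial.induction_on with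
  | C a => simp
  | add p q hp hq => simp only [map_add, hp, hq]
  | mul_X p i hp =>
    simp only [map_mul, hp, MvPolynomial.bind₁_X_right, MvPolynomial.eval_X]
    congr 1
    rcases i with k | _ | x
    · simp [ptw]
    · simp [ptw]
    · simp [ptw, Matrix.mul_apply]

/-! ### relations -/

/-- relations on `(0, R)` with the coefficients `a` -/
def RelW (R : ℝ) (a : κ → ℂ → ℂ) (Y : ℂ → Matrix (Fin n) (Fin n) ℂ) : Set (MvPolynomial (Wr κ n) ℂ) :=
  {P | ∀ x : ℝ, 0 < x → x < R → evw P (fun k => a k x) (Complex.log x) (Y (x : ℂ)) = 0}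

/-- matrices which preserve the relations -/
def GalW (R : ℝ) (a : κ → ℂ → ℂ) (Y : ℂ → Matrix (Fin n) (Fin n) ℂ) : Submonoid (Matrix (Fin n) (Fin n) ℂ) where
  carrier := {g | ∀ P ∈ RelW R a Y, ∀ x : ℝ, 0 < x → x < R →
    evw P (fun k => a k x) (Complex.log x) (Y (x : ℂ) * g) = 0}
  mul_mem' := by
    intro g h hg hh P hP x hx hx1
    have h1 : sbw 0 h P ∈ RelW R a Y := fun y hy hy1 => by rw [ev_sbw, add_zero]; exact hh P hP y hy hy1
    have h2 := hg _ h1 x hx hx1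
    rw [ev_sbw, Matrix.mul_assoc, add_zero] at h2
    exact h2
  one_mem' := by
    intro P hP x hx hx1
    rw [mul_one]
    exact hP x hx hx1

lemma GalW_closed (R : ℝ) (a : κ → ℂ → ℂ) (Y : ℂ → Matrix (Fin n) (Fin n) ℂ)
    (M : Matrix (Fin n) (Fin n) (Polynomial ℂ))
    (hM : ∀ c : ℂ, c ≠ 0 → M.map (Polynomial.eval c) ∈ GalW R a Y) : M.map (Polynomial.eval 0) ∈ GalW R a Y := by
  intro P hP x hx hx1
  set q : ℂ[X] := evwp P (fun k => C (a k x)) (C (Complex.log x)) ((Y (x : ℂ)).map C * M) with hq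
  have hqe : ∀ c, q.eval c = evw P (fun k => a k x) (Complex.log x) (Y (x : ℂ) * M.map (Polynomial.eval c)) := by
    intro c
    rw [hq, eval_evwp, eval_C, map_mul_eval, map_C_eval]
    simp only [eval_C]
  have h0 : q = 0 := by
    refine Polynomial.eq_zero_of_infinite_isRoot q (Set.Infinite.mono (s := ({0} : Set ℂ)ᶜ) ?_
      (Set.finite_singleton (0 : ℂ)).infinite_compl)
    intro c hc
    show q.eval c = 0
    rw [hqe]
    exact hM c hc P hP x hx hx1
  rw [← hqe, h0, Polynomial.eval_zero]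

/-- the monodromy at `0` preserves the relations -/
theorem mono_zeroW {R : ℝ} (hR : 0 < R) {a : κ → ℂ → ℂ} (ha : ∀ k, AnalyticOnNhd ℂ (a k) (Sg1 R))
    {N0 : Matrix (Fin n) (Fin n) ℂ} (h0 : N0 ^ n = 0) {G : ℂ → Matrix (Fin n) (Fin n) ℂ}
    (hG : ∀ i j, AnalyticOnNhd ℂ (fun w => G w i j) (Sg0 R)) {Y : ℂ → Matrix (Fin n) (Fin n) ℂ}
    (hY : ∀ x : ℝ, 0 < x → x < R → Y x = G x * E N0 (Complex.log x)) (c : ℂ) {P : MvPolynomial (Wr κ n) ℂ}
    (hP : P ∈ RelW R a Y) {x : ℝ} (hx : 0 < x) (hx1 : x < R) :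
    evw P (fun k => a k x) (Complex.log x + c) (Y x * E N0 c) = 0 := by
  have h1 : ∀ w ∈ Sg0 R, evwp P (fun k => C (a k w)) X ((G w).map C * Ep N0) = 0 := by
    refine log_zeroR hR (f := fun w => evwp P (fun k => C (a k w)) X ((G w).map C * Ep N0)) ?_ fun y hy hy1 => ?_
    · refine PA.aeval (fun o => ?_) P
      rcases o with k | _ | x
      · exact PA.ofFun ((ha k).mono Sg0_sub)
      · exact PA.const _
      · simp only [ptw, Sum.elim_inr, Option.elim_some, Matrix.mul_apply, Matrix.map_apply]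
        exact PA.sum _ fun l _ => (PA.ofFun (hG _ _)).mul (PA.const _)
    · rw [eval_evwp, map_mul_eval, map_C_eval, Ep_eval, Complex.ofReal_log hy.le, eval_X, ← hY y hy hy1]
      simp only [eval_C]
      exact hP y hy hy1
  have h2 := congrArg (Polynomial.eval (Complex.log x + c)) (h1 x (mem_Sg0 hx.le hx1))
  rw [eval_evwp, map_mul_eval, map_C_eval, Ep_eval, eval_zero, E_add h0, ← Matrix.mul_assoc, ← hY x hx hx1, eval_X]
    at h2
  simp only [eval_C] at h2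
  exact h2

/-- conjugation by the monodromy at `0` -/
theorem conj_EW {R : ℝ} (hR : 0 < R) {a : κ → ℂ → ℂ} (ha : ∀ k, AnalyticOnNhd ℂ (a k) (Sg1 R))
    {N0 : Matrix (Fin n) (Fin n) ℂ} (h0 : N0 ^ n = 0) {G : ℂ → Matrix (Fin n) (Fin n) ℂ}
    (hG : ∀ i j, AnalyticOnNhd ℂ (fun w => G w i j) (Sg0 R)) {Y : ℂ → Matrix (Fin n) (Fin n) ℂ}
    (hY : ∀ x : ℝ, 0 < x → x < R → Y x = G x * E N0 (Complex.log x)) (c : ℂ) (g : Matrix (Fin n) (Fin n) ℂ)
    (hg : g ∈ GalW R a Y) : E N0 c * g * E N0 (-c) ∈ GalW R a Y := by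
  intro P hP x hx hx1
  have h1 : sbw (-c) (E N0 (-c)) P ∈ RelW R a Y := fun y hy hy1 => by
    rw [ev_sbw]
    exact mono_zeroW hR ha h0 hG hY (-c) hP hy hy1
  have h2 : sbw (-c) (g * E N0 (-c)) P ∈ RelW R a Y := fun y hy hy1 => by
    have h3 := hg _ h1 y hy hy1
    rw [ev_sbw, Matrix.mul_assoc] at h3
    rw [ev_sbw]
    exact h3
  have h3 := mono_zeroW hR ha h0 hG hY c h2 hx hx1
  rw [ev_sbw, add_neg_cancel_right] at h3
  simp only [Matrix.mul_assoc] at h3 ⊢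
  exact h3

/-- the monodromy at `R` preserves the relations -/
theorem conj_memW {R : ℝ} (hR : 0 < R) {a : κ → ℂ → ℂ} (ha : ∀ k, AnalyticOnNhd ℂ (a k) (Sg1 R))
    {N2 : Matrix (Fin n) (Fin n) ℂ} (h2 : N2 ^ n = 0) {G : ℂ → Matrix (Fin n) (Fin n) ℂ}
    (hG : ∀ i j, AnalyticOnNhd ℂ (fun w => G w i j) (Sg0 R)) {Y : ℂ → Matrix (Fin n) (Fin n) ℂ}
    {M Mi : Matrix (Fin n) (Fin n) ℂ} (hMi : M * Mi = 1)
    (hY : ∀ x : ℝ, 0 < x → x < R → Y ((R - x : ℝ) : ℂ) = G x * E N2 (Complex.log x) * M) (c : ℂ) :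
    Mi * E N2 c * M ∈ GalW R a Y := by
  intro P hP x hx hx1
  have hlog : AnalyticOnNhd ℂ (fun w : ℂ => Complex.log ((R : ℂ) - w)) (Sg0 R) := by
    rintro _ ⟨y, hy, rfl⟩
    refine AnalyticAt.clog (analyticAt_const.sub analyticAt_id) ?_
    left
    have e : (R : ℂ) - (y : ℂ) = ((R - y : ℝ) : ℂ) := by push_cast; rfl
    show 0 < ((R : ℂ) - (y : ℂ)).re
    rw [e, Complex.ofReal_re]
    linarith [hy.2]
  have h1 : ∀ w ∈ Sg0 R, evwp P (fun k => C (a k ((R : ℂ) - w))) (C (Complex.log ((R : ℂ) - w)))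
      ((G w).map C * Ep N2 * M.map C) = 0 := by
    refine log_zeroR hR (f := fun w => evwp P (fun k => C (a k ((R : ℂ) - w))) (C (Complex.log ((R : ℂ) - w)))
      ((G w).map C * Ep N2 * M.map C)) ?_ fun y hy hy1 => ?_
    · refine PA.aeval (fun o => ?_) P
      rcases o with k | _ | x
      · exact PA.ofFun ((an_flip (ha k)).mono Sg0_sub)
      · exact PA.ofFun hlog
      · simp only [ptw, Sum.elim_inr, Option.elim_some, Matrix.mul_apply, Matrix.map_apply]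
        exact PA.sum _ fun l _ => (PA.sum _ fun k _ => (PA.ofFun (hG _ _)).mul (PA.const _)).mul (PA.const _)
    · rw [eval_evwp, map_mul_eval, map_mul_eval, map_C_eval, map_C_eval, Ep_eval, Complex.ofReal_log hy.le]
      simp only [eval_C]
      have h3 := hP (R - y) (by linarith) (by linarith)
      rw [hY y hy hy1] at h3
      push_cast at h3
      exact h3
  have hx' : 0 < R - x := by linarith
  have h4 := congrArg (Polynomial.eval (Complex.log ((R - x : ℝ) : ℂ) + c)) (h1 _ (mem_Sg0 hx'.le (by linarith)))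
  rw [eval_evwp, map_mul_eval, map_mul_eval, map_C_eval, map_C_eval, Ep_eval, eval_zero, E_add h2] at h4
  simp only [eval_C] at h4
  have e0 : (R : ℂ) - ((R - x : ℝ) : ℂ) = (x : ℂ) := by push_cast; ring
  rw [e0] at h4
  have e1 : Y (x : ℂ) = G ((R - x : ℝ) : ℂ) * E N2 (Complex.log ((R - x : ℝ) : ℂ)) * M := by
    have := hY (R - x) hx' (by linarith)
    rwa [sub_sub_cancel] at this
  rw [e1]
  have e2 : G ((R - x : ℝ) : ℂ) * E N2 (Complex.log ((R - x : ℝ) : ℂ)) * M * (Mi * E N2 c * M) =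
      G ((R - x : ℝ) : ℂ) * (E N2 (Complex.log ((R - x : ℝ) : ℂ)) * E N2 c) * M := by
    calc _ = G ((R - x : ℝ) : ℂ) * E N2 (Complex.log ((R - x : ℝ) : ℂ)) * (M * Mi) * E N2 c * M := by
          simp only [Matrix.mul_assoc]
      _ = _ := by rw [hMi, mul_one]; simp only [Matrix.mul_assoc]
  rw [e2]
  exact h4

end Pool.Agent.W2helper4.NB
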