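import Pool.Agent.W2helper4.NB.Fac

/-!
# Relations of a pulled back hypergeometric family over the functions which are analytic along the segment
-/

set_option autoImplicit false

open Filter Topology Matrix

namespace Pool.Agent.W2helper4.NB

open Pool.Agent.Y119.HY Pool.Agent.W2helper4.HJ

/-- the functions which are analytic along the segment -/
abbrev AN (R : ℝ) : Type := {f : ℂ → ℂ // AnalyticOnNhd ℂ f (Sg1 R)}

variable {n : ℕ} {R : ℝ}

/-- polynomials in the logarithm and the entries of a matrix with coefficients analytic along the segment -/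
def PF (R : ℝ) (F : ℂ → ℂ → Matrix (Fin n) (Fin n) ℂ → ℂ) : Prop :=
  ∃ P : MvPolynomial (Wr (AN R) n) ℂ, ∀ x L X, F x L X = evw P (fun k => k.1 x) L X

lemma PF.const (c : ℂ) : PF R fun _ _ (_ : Matrix (Fin n) (Fin n) ℂ) => c :=
  ⟨MvPolynomial.C c, fun x L X => by simp [evw]⟩

lemma PF.an {f : ℂ → ℂ} (hf : AnalyticOnNhd ℂ f (Sg1 R)) : PF R fun x _ (_ : Matrix (Fin n) (Fin n) ℂ) => f x :=
  ⟨MvPolynomial.X (Sum.inl ⟨f, hf⟩), fun x L X => by simp [evw, ptw]⟩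

lemma PF.log : PF R fun _ L (_ : Matrix (Fin n) (Fin n) ℂ) => L :=
  ⟨MvPolynomial.X (Sum.inr none), fun x L X => by simp [evw, ptw]⟩

lemma PF.entry (p q : Fin n) : PF R fun _ _ (X : Matrix (Fin n) (Fin n) ℂ) => X p q :=
  ⟨MvPolynomial.X (Sum.inr (some (p, q))), fun x L X => by simp [evw, ptw]⟩

lemma PF.add {F G : ℂ → ℂ → Matrix (Fin n) (Fin n) ℂ → ℂ} (hF : PF R F) (hG : PF R G) :
    PF R fun x L X => F x L X + G x L X := by
  obtain ⟨P, hP⟩ := hF
  obtain ⟨Q, hQ⟩ := hG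
  exact ⟨P + Q, fun x L X => by simp only [hP, hQ]; simp [evw]⟩

lemma PF.mul {F G : ℂ → ℂ → Matrix (Fin n) (Fin n) ℂ → ℂ} (hF : PF R F) (hG : PF R G) :
    PF R fun x L X => F x L X * G x L X := by
  obtain ⟨P, hP⟩ := hF
  obtain ⟨Q, hQ⟩ := hG
  exact ⟨P * Q, fun x L X => by simp only [hP, hQ]; simp [evw]⟩

lemma PF.sum {ι : Type*} (s : Finset ι) {F : ι → ℂ → ℂ → Matrix (Fin n) (Fin n) ℂ → ℂ} (hF : ∀ i, PF R (F i)) :
    PF R fun x L X => ∑ i ∈ s, F i x L X := by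
  classical
  induction s using Finset.induction_on with
  | empty => simpa using PF.const (n := n) (R := R) 0
  | insert a s ha ih =>
    simp only [Finset.sum_insert ha]
    exact (hF a).add ih

lemma PF.pow {F : ℂ → ℂ → Matrix (Fin n) (Fin n) ℂ → ℂ} (hF : PF R F) (k : ℕ) :
    PF R fun x L X => F x L X ^ k := by
  induction k with
  | zero => simpa using PF.const (n := n) (R := R) 1
  | succ k ih =>
    simp only [pow_succ]
    exact ih.mul hF

lemma PF.eval {σ : Type*} {F : σ → ℂ → ℂ → Matrix (Fin n) (Fin n) ℂ → ℂ} (hF : ∀ s, PF R (F s))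
    (P : MvPolynomial σ ℂ) : PF R fun x L X => MvPolynomial.eval (fun s => F s x L X) P := by
  induction P using MvPolynomial.induction_on with
  | C a => simpa using PF.const (n := n) (R := R) a
  | add p q hp hq => simp only [map_add]; exact hp.add hq
  | mul_X p i hp => simp only [map_mul, MvPolynomial.eval_X]; exact hp.mul (hF i)

lemma slit_UU {r : ℝ} (h0 : 0 < r) (h1 : r < 1) : (fun _ : Unit => (r : ℂ)) ∈ UU :=
  ⟨slit_real h0, by rw [Complex.norm_real, Real.norm_of_nonneg h0.le]; exact h1⟩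

/-- **A pulled back family is independent of all functions which are analytic along the segment.** -/
theorem stage {m : ℕ} (hm : 1 ≤ m) {β : Fin m → ℚ} (hβ : ∀ i, ∀ a : ℤ, β i ≠ a) (hR : 0 < R) {φ : ℂ → ℂ}
    (hφ : AnalyticOnNhd ℂ φ (Sg1 R)) (h0 : φ 0 = 0) (h1 : φ R = 1)
    (hr : ∀ x : ℝ, 0 < x → x < R → ∃ r : ℝ, 0 < r ∧ r < 1 ∧ φ x = r)
    {F : ℂ → ℂ → Matrix (Fin (2 * m)) (Fin (2 * m)) ℂ → ℂ} (hF : PF R F)
    (h : ∀ x : ℝ, 0 < x → x < R → F x (Complex.log x) (YY β (φ x)) = 0) {x : ℝ} (hx : 0 < x) (hx1 : x < R) (L : ℂ)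
    {Z : Matrix (Fin (2 * m)) (Fin (2 * m)) ℂ} (hZ : Z.transpose * JJ β * Z = JJ β) : F x L Z = 0 := by
  have hQ := Pool.Agent.Y119.HZ.QD_QB hm (not_int hβ)
  set A := cm (Am (2 * m)) with hA
  set J := cm (Jm (2 * m) (QB β)) with hJdef
  set H := Hc (2 * m) (QB β) with hH
  set u := uc (2 * m) with hu
  have hn : 2 ≤ 2 * m := hQ.two
  have hnil : A ^ (2 * m) = 0 := Ac_nil
  have hJs : J.transpose = -J := Jc_skew hQ
  have hdet : J.det ≠ 0 := Jc_det hQ
  have hrel : A.transpose * J + J * A = 0 := Jc_rel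
  have hs0 : Sol A (cm (Bm (2 * m) (QB β))) H := sol_c hQ
  have hs : Sol A (-vecMulVec u (u ᵥ* J)) H := by
    rw [cm_Bm hQ] at hs0
    exact hs0
  obtain ⟨v, hv⟩ := exists_VV hn hJs hdet hnil hrel hs
  have hvne := fam_ne hm hβ hv
  obtain ⟨K, M, Mi, hK, e1, e2, e3, e4, e5⟩ := hv
  have hN : (vecMulVec u (u ᵥ* J)) ^ (2 * m) = 0 := tv_pow hJs u hn
  -- the local structure
  obtain ⟨e, w, he, hw1, hw2, hw3⟩ := factor hR hφ h0 (fun x hx hx1 => by
    rcases hx1.eq_or_lt with h | h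
    · subst h
      exact ⟨1, one_pos, by rw [h1]; simp⟩
    · obtain ⟨r, hr0, hr1, hr2⟩ := hr x hx h
      exact ⟨r, hr0, hr2⟩)
  obtain ⟨e', w', he', hw1', hw2', hw3'⟩ := factor (φ := fun z => 1 - φ ((R : ℂ) - z)) hR
    (analyticOnNhd_const.sub (an_flip hφ)) (by simp only [sub_zero, h1, sub_self]) (fun x hx hx1 => by
    rcases hx1.eq_or_lt with h | h
    · subst h
      exact ⟨1, one_pos, by simp only [sub_self, h0, sub_zero]; simp⟩
    · obtain ⟨r, hr0, hr1, hr2⟩ := hr (R - x) (by linarith) (by linarith)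
      refine ⟨1 - r, by linarith, ?_⟩
      push_cast at hr2 ⊢
      rw [hr2])
  obtain ⟨P, hP⟩ := hF
  set Y : ℂ → Matrix (Fin (2 * m)) (Fin (2 * m)) ℂ := fun z => YY β (φ z) with hY
  have hPR : P ∈ RelW R (fun (k : AN R) => k.1) Y := by
    intro y hy hy1
    rw [← hP]
    exact h y hy hy1
  have ha : ∀ k : AN R, AnalyticOnNhd ℂ k.1 (Sg1 R) := fun k => k.2
  have hHan := Hf_an hs hnil
  have hKan := Hf_an hK hN
  -- near `0`
  set G0 : ℂ → Matrix (Fin (2 * m)) (Fin (2 * m)) ℂ := fun z => Hf H (φ z) * E A (Complex.log (w z)) with hG0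
  have hnorm0 : ∀ z ∈ Sg0 R, ‖φ z‖ < 1 := by
    rintro _ ⟨y, hy, rfl⟩
    rcases hy.1.eq_or_lt with h | h
    · subst h
      simp [h0]
    · obtain ⟨r, hr0, hr1, hr2⟩ := hr y h hy.2
      rw [hr2, Complex.norm_real, Real.norm_of_nonneg hr0.le]
      exact hr1
  have hG0an : ∀ i j, AnalyticOnNhd ℂ (fun z => G0 z i j) (Sg0 R) := fun i j =>
    an_mul (an_Hf hHan (hφ.mono Sg0_sub) hnorm0) (an_E A ((an_log hw1 hw2).mono Sg0_sub)) i j
  have hY0 : ∀ y : ℝ, 0 < y → y < R → Y y = G0 y * E ((e : ℂ) • A) (Complex.log y) := fun y hy hy1 =>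
    Yf_local hnil hw2 hw3 hy hy1.le
  -- near `R`
  set G1 : ℂ → Matrix (Fin (2 * m)) (Fin (2 * m)) ℂ := fun z =>
    Hf K (1 - φ ((R : ℂ) - z)) * E (vecMulVec u (u ᵥ* J)) (Complex.log (w' z)) with hG1
  have hnorm1 : ∀ z ∈ Sg0 R, ‖1 - φ ((R : ℂ) - z)‖ < 1 := by
    rintro _ ⟨y, hy, rfl⟩
    rcases hy.1.eq_or_lt with h | h
    · subst h
      simp [h1]
    · obtain ⟨r, hr0, hr1, hr2⟩ := hr (R - y) (by linarith [hy.2]) (by linarith)
      push_cast at hr2
      have e6 : (1 : ℂ) - (r : ℂ) = ((1 - r : ℝ) : ℂ) := by push_cast; rfl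
      rw [hr2, e6, Complex.norm_real, Real.norm_of_nonneg (by linarith)]
      linarith
  have hG1an : ∀ i j, AnalyticOnNhd ℂ (fun z => G1 z i j) (Sg0 R) := fun i j =>
    an_mul (an_Hf hKan ((analyticOnNhd_const.sub (an_flip hφ)).mono Sg0_sub) hnorm1)
      (an_E _ ((an_log hw1' hw2').mono Sg0_sub)) i j
  have hY1 : ∀ y : ℝ, 0 < y → y < R →
      Y ((R - y : ℝ) : ℂ) = G1 y * E ((e' : ℂ) • vecMulVec u (u ᵥ* J)) (Complex.log y) * M := by
    intro y hy hy1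
    obtain ⟨r, hr0, hr1, hr2⟩ := hr (R - y) (by linarith) (by linarith)
    have h3 := e4 (φ ((R - y : ℝ) : ℂ)) (by rw [hr2]; exact real_mem_Lens hr0 hr1)
    have h4 := Yf_local (R := R) hN (H := K) (φ := fun z => 1 - φ ((R : ℂ) - z)) hw2' hw3' hy hy1.le
    have h5 : Y ((R - y : ℝ) : ℂ) = Yf (vecMulVec u (u ᵥ* J)) K (1 - φ ((R - y : ℝ) : ℂ)) * M := h3
    rw [h5]
    push_cast at h4 ⊢
    rw [h4]
  -- the group
  have hec : (e : ℂ) ≠ 0 := by exact_mod_cast he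
  have hec' : (e' : ℂ) ≠ 0 := by exact_mod_cast he'
  have hnilA : ((e : ℂ) • A) ^ (2 * m) = 0 := smul_nil hnil _
  have hconjE : ∀ c : ℂ, ∀ g ∈ GalW R (fun (k : AN R) => k.1) Y,
      E A c * g * E A (-c) ∈ GalW R (fun (k : AN R) => k.1) Y := by
    intro c g hg
    have h3 := conj_EW hR ha hnilA hG0an hY0 (c / e) g hg
    rw [E_smul_mat, E_smul_mat, mul_neg, mul_div_cancel₀ _ hec] at h3
    exact h3
  have htv : ∀ s, tv J v s ∈ GalW R (fun (k : AN R) => k.1) Y := by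
    intro s
    have h3 := conj_memW hR ha (smul_nil hN (e' : ℂ)) hG1an e1 hY1 (s / e')
    rw [E_smul_mat, mul_div_cancel₀ _ hec', E_tv hn hJs, tv_conj Mi M e2 (VV_isom e1 e3), ← e5] at h3
    exact h3
  have hall : ∀ g : Matrix (Fin (2 * m)) (Fin (2 * m)) ℂ, g.transpose * J * g = J →
      g ∈ GalW R (fun (k : AN R) => k.1) Y := fun g hg =>
    sp_all hJs hnil hrel hvne _ hconjE htv (GalW_closed R _ Y) hdet g hg
  -- conclusion
  obtain ⟨r, hr0, hr1, hr2⟩ := hr x hx hx1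
  have hYsp : (Y x).transpose * JJ β * Y x = JJ β := by
    have h3 := YY_sp hm hβ (slit_UU hr0 hr1)
    rw [hY]
    simp only
    rw [hr2]
    exact h3
  obtain ⟨Yi, hYi1, hYi2⟩ := sp_inv (J := JJ β) hdet hYsp
  set c := L - Complex.log x with hc
  have hE : (E ((e : ℂ) • A) (-c)).transpose * JJ β * E ((e : ℂ) • A) (-c) = JJ β := by
    rw [E_smul_mat]
    exact E_isom hnil hrel _
  have hg := hall (E ((e : ℂ) • A) (-c) * (Yi * Z)) (sp_mul hE (sp_mul hYi2 hZ))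
  have h3 : sbw 0 (E ((e : ℂ) • A) (-c) * (Yi * Z)) P ∈ RelW R (fun (k : AN R) => k.1) Y := by
    intro y hy hy1
    rw [ev_sbw, add_zero]
    exact hg P hPR y hy hy1
  have h4 := mono_zeroW hR ha hnilA hG0an hY0 c h3 hx hx1
  rw [ev_sbw, add_zero] at h4
  have h5 : E ((e : ℂ) • A) c * E ((e : ℂ) • A) (-c) = 1 := E_mul_neg hnilA c
  have h6 : Y x * E ((e : ℂ) • A) c * (E ((e : ℂ) • A) (-c) * (Yi * Z)) = Z := by
    calc _ = Y x * (E ((e : ℂ) • A) c * E ((e : ℂ) • A) (-c)) * (Yi * Z) := by simp only [Matrix.mul_assoc]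
      _ = (Y x * Yi) * Z := by rw [h5, mul_one, ← Matrix.mul_assoc]
      _ = Z := by rw [hYi1, one_mul]
  have h7 : Complex.log (x : ℂ) + c = L := by rw [hc]; ring
  rw [h6, h7, ← hP] at h4
  exact h4

end Pool.Agent.W2helper4.NB
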