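import Pool.Agent.W2helper4.NB.Ind

/-!
# The torsors of pulled back families
-/

set_option autoImplicit false
set_option linter.unusedSectionVars false

open Filter Topology Matrix Polynomial

namespace Pool.Agent.W2helper4.NB

open Pool.Agent.Y119.HY Pool.Agent.W2helper4.HJ
open Pool.Agent.Y890.MV (TorM evX evM evM_eq)

variable {k : ℕ} {m : Fin k → ℕ} (β : ∀ i, Fin (m i) → ℚ) (R : Fin k → ℝ) (φ : Fin k → ℂ → ℂ) (V : Set ℂ)

/-- the domain -/
def UV : Set (Unit → ℂ) := {x | x () ∈ V}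

/-- the functions -/
noncomputable def ffp (s : Sg m) (x : Unit → ℂ) : ℂ :=
  s.elim (Complex.log (x ())) fun q => YY (β q.1) (φ q.1 (x ())) q.2.1 q.2.2

/-- translation of polynomials -/
noncomputable def trp (p : MvPolynomial (Sg m) (MvPolynomial Unit ℂ)) : MvPolynomial (VX m) ℂ :=
  MvPolynomial.eval₂Hom (MvPolynomial.eval₂Hom (MvPolynomial.C) (fun _ => MvPolynomial.X none))
    (fun s : Sg m => MvPolynomial.X (some s)) p

lemma trp_ev (p : MvPolynomial (Sg m) (MvPolynomial Unit ℂ)) (x : Unit → ℂ) (Y : Sg m → ℂ) :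
    evx (trp p) (x ()) (Y none) (mt Y) = evX x Y p := by
  let E : MvPolynomial (VX m) ℂ →+* ℂ := MvPolynomial.eval (ptx (x ()) (Y none) (mt Y))
  let T : MvPolynomial (Sg m) (MvPolynomial Unit ℂ) →+* MvPolynomial (VX m) ℂ :=
    MvPolynomial.eval₂Hom (MvPolynomial.eval₂Hom (MvPolynomial.C) (fun _ => MvPolynomial.X none))
    (fun s : Sg m => MvPolynomial.X (some s))
  have h1 : E.comp T = MvPolynomial.eval₂Hom (MvPolynomial.eval x) Y := by
    refine MvPolynomial.ringHom_ext (fun a => ?_) ?_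
    · have h2 : (E.comp T).comp MvPolynomial.C = MvPolynomial.eval x := by
        refine MvPolynomial.ringHom_ext (fun b => ?_) (fun _ => ?_)
        · simp [E, T]
        · simp [E, T, ptx]
      have h3 := congrArg (fun g => g a) h2
      simp only [RingHom.comp_apply] at h3
      rw [RingHom.comp_apply, h3]
      exact (MvPolynomial.eval₂Hom_C _ _ _).symm
    · rintro (_ | ⟨i, a, b⟩)
      · simp [E, T, ptx]
      · simp only [E, T, RingHom.comp_apply, MvPolynomial.eval₂Hom_X', Option.elim_some, MvPolynomial.eval_X, ptx]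
        rfl
  exact congrArg (fun g => g p) h1

lemma UV_open (hV : IsOpen V) : IsOpen (UV V) := hV.preimage (continuous_apply _)

lemma UV_conn (hV : IsPreconnected V) : IsPreconnected (UV V) := by
  have h1 : UV V = (fun (w : ℂ) (_ : Unit) => w) '' V := by
    ext x
    constructor
    · intro h
      exact ⟨x (), h, rfl⟩
    · rintro ⟨w, hw, rfl⟩
      exact hw
  rw [h1]
  exact hV.image _ (continuous_pi fun _ => continuous_id).continuousOn

lemma UV_nonempty (hV : V.Nonempty) : (UV V).Nonempty := by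
  obtain ⟨w, hw⟩ := hV
  exact ⟨fun _ => w, hw⟩

lemma ffp_an (hm : ∀ i, 1 ≤ m i) (hβ : ∀ i j, ∀ a : ℤ, β i j ≠ a) (hVs : V ⊆ Complex.slitPlane)
    (hφ : ∀ i, AnalyticOnNhd ℂ (φ i) V) (hφV : ∀ i, ∀ z ∈ V, φ i z ∈ Complex.slitPlane ∧ ‖φ i z‖ < 1) (s : Sg m) :
    AnalyticOnNhd ℂ (ffp β φ s) (UV V) := by
  intro x hx
  have hpr : AnalyticAt ℂ (fun x : Unit → ℂ => x ()) x :=
    (ContinuousLinearMap.proj (R := ℂ) (φ := fun _ : Unit => ℂ) ()).analyticAt x
  rcases s with _ | ⟨i, a, b⟩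
  · exact AnalyticAt.fun_comp (g := Complex.log) (f := fun x : Unit → ℂ => x ()) (analyticAt_clog (hVs hx)) hpr
  · have h0 : AnalyticAt ℂ (fun x : Unit → ℂ => φ i (x ())) x :=
      AnalyticAt.fun_comp (g := φ i) (f := fun x : Unit → ℂ => x ()) (hφ i _ hx) hpr
    obtain ⟨h2, h3⟩ := hφV i _ hx
    have h1 := YY_an (hm i) (hβ i) a b (φ i (x ())) ⟨h2, by rw [Metric.mem_ball, dist_zero_right]; exact h3⟩
    exact AnalyticAt.fun_comp (g := fun z => YY (β i) z a b) (f := fun x : Unit → ℂ => φ i (x ())) h1 h0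

/-- **The relations between the solutions at different pullbacks of the same point.** -/
theorem torP (hm : ∀ i, 1 ≤ m i) (hβ : ∀ i j, ∀ a : ℤ, β i j ≠ a) (hg : ∀ i, Good (R i) (φ i))
    (hR : ∀ i j, i ≠ j → R i ≠ R j) {ε : ℝ} (hε : 0 < ε) (hVε : ∀ x : ℝ, 0 < x → x < ε → (x : ℂ) ∈ V)
    (hφV : ∀ i, ∀ z ∈ V, φ i z ∈ Complex.slitPlane ∧ ‖φ i z‖ < 1) : TorM (UV V) (ffp β φ) (TT β) := by
  have hQ : ∀ i, QD (2 * m i) (QB (β i)) := fun i => Pool.Agent.Y119.HZ.QD_QB (hm i) (not_int (hβ i))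
  have hdet : ∀ i, (JJ (β i)).det ≠ 0 := fun i => Jc_det (hQ i)
  have hmt : ∀ x : Unit → ℂ, mt (fun s => ffp β φ s x) = fun i => YY (β i) (φ i (x ())) := fun x => rfl
  have hsp : ∀ i, ∀ z ∈ V, (YY (β i) (φ i z)).transpose * JJ (β i) * YY (β i) (φ i z) = JJ (β i) := fun i z hz =>
    YY_sp (hm i) (hβ i) (x := fun _ => φ i z) (hφV i z hz)
  refine ⟨?_, ?_, ?_, ?_⟩
  · intro x hx i
    rw [hmt]
    exact hsp i _ hx
  · intro p hp x _ Y hY
    obtain ⟨ρ, hρ, hρε, hρR⟩ : ∃ ρ : ℝ, 0 < ρ ∧ ρ ≤ ε ∧ ∀ i, ρ ≤ R i := by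
      rcases isEmpty_or_nonempty (Fin k) with h | h
      · exact ⟨ε, hε, le_rfl, fun i => h.elim i⟩
      · obtain ⟨i0, hi0⟩ := Finite.exists_min R
        exact ⟨min ε (R i0), lt_min hε (hg i0).pos, min_le_left _ _, fun i => (min_le_right _ _).trans (hi0 i)⟩
    have hreal : ∀ y : ℝ, 0 < y → y < ρ → evx (trp p) (y : ℂ) (Y none) (mt Y) = 0 := by
      intro y hy hy1
      refine indep β R φ hm hβ hg hR (trp p) (mt Y) hY k Finset.univ (Finset.card_fin k) ρ hρ (fun i _ => hρR i)
        (fun t ht ht1 => ?_) y hy hy1 (Y none)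
      have h1 := hp (fun _ => (t : ℂ)) (hVε t ht (ht1.trans_le hρε))
      rw [evM_eq, ← trp_ev] at h1
      simp only [Finset.mem_univ, if_true]
      exact h1
    rw [← trp_ev]
    set q : ℂ[X] := MvPolynomial.aeval (ptx Polynomial.X (C (Y none)) (fun i => (mt Y i).map C)) (trp p) with hq
    have hqe : ∀ s, q.eval s = evx (trp p) s (Y none) (mt Y) := by
      intro s
      rw [hq]
      unfold evx
      generalize trp p = P
      induction P using MvPolynomial.induction_on with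
      | C a => simp
      | add p q hp hq => simp only [map_add, eval_add, hp, hq]
      | mul_X p i hp =>
        simp only [map_mul, eval_mul, hp, MvPolynomial.aeval_X, MvPolynomial.eval_X]
        congr 1
        rcases i with _ | _ | x
        · simp [ptx]
        · simp [ptx]
        · simp [ptx]
    have h0 : q = 0 := by
      refine Polynomial.eq_zero_of_infinite_isRoot q (Set.Infinite.mono (s := (fun x : ℝ => (x : ℂ)) '' Set.Ioo 0 ρ) ?_
        ((Set.Ioo_infinite hρ).image Complex.ofReal_injective.injOn))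
      rintro _ ⟨y, hy, rfl⟩
      show q.eval _ = 0
      rw [hqe]
      exact hreal y hy.1 hy.2
    rw [← hqe, h0, Polynomial.eval_zero]
  · intro x hx Y hY
    choose Yi hYi1 hYi2 using fun i => sp_inv (hdet i) (hsp i _ hx)
    choose M hM0 hM1 hMt using fun i => sp_path (Jc_skew (hQ i)) (hdet i) (Yi i * mt Y i) (sp_mul (hYi2 i) (hY i))
    refine ⟨fun s => s.elim (C (Complex.log (x ())) + Polynomial.X * C (Y none - Complex.log (x ())))
      fun q => (((YY (β q.1) (φ q.1 (x ()))).map C) * M q.1) q.2.1 q.2.2, ?_, ?_, ?_⟩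
    · rintro (_ | ⟨i, a, b⟩)
      · simp [ffp]
      · have h1 := map_mul_eval ((YY (β i) (φ i (x ()))).map C) (M i) 0
        rw [hM0, map_C_eval, mul_one] at h1
        exact congrFun (congrFun h1 a) b
    · rintro (_ | ⟨i, a, b⟩)
      · simp
      · have h1 := map_mul_eval ((YY (β i) (φ i (x ()))).map C) (M i) 1
        rw [hM1, map_C_eval, ← Matrix.mul_assoc, hYi1, one_mul] at h1
        exact congrFun (congrFun h1 a) b
    · intro t i
      have h1 := map_mul_eval ((YY (β i) (φ i (x ()))).map C) (M i) t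
      rw [map_C_eval] at h1
      have e : mt (fun s : Sg m => (s.elim (C (Complex.log (x ())) + Polynomial.X * C (Y none - Complex.log (x ())))
          fun q => (((YY (β q.1) (φ q.1 (x ()))).map C) * M q.1) q.2.1 q.2.2).eval t) i =
          YY (β i) (φ i (x ())) * (M i).map (Polynomial.eval t) := by
        rw [← h1]
        rfl
      rw [e]
      exact sp_mul (hsp i _ hx) (hMt i t)
  · refine ⟨1, one_ne_zero, fun x0 _ _ Y0 hY0 => ⟨fun s => MvPolynomial.C (Y0 s), fun x _ _ => ?_, fun s => ?_⟩⟩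
    · have e : (fun s => MvPolynomial.eval x (MvPolynomial.C (Y0 s)) / MvPolynomial.eval x 1) = Y0 := by
        funext s
        simp
      rw [e]
      exact hY0
    · simp

end Pool.Agent.W2helper4.NB
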